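import Mathlib
import Pool.Agent.Helper91.ManifoldDim
import Pool.Agent.Helper91.HeisGroup
import Pool.Agent.Helper91.LinEmb

set_option autoImplicit false

open Set Filter Topology Manifold
open scoped Manifold ContDiff RealInnerProductSpace

noncomputable section

namespace Pool.Agent.Results.MP_56bb89_lc.LieExponentTwo

/-- A real, finite-dimensional Lie group of positive dimension: a Hausdorff, second countable
smooth manifold `G` without boundary modelled on a finite-dimensional real normed space `E`,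
with smooth multiplication and inversion. -/
structure RealLieGroup : Type 1 where
  E : Type
  G : Type
  [normedAddCommGroup : NormedAddCommGroup E]
  [normedSpace : NormedSpace ℝ E]
  [finiteDimensional : FiniteDimensional ℝ E]
  [group : Group G]
  [topologicalSpace : TopologicalSpace G]
  [t2Space : T2Space G]
  [secondCountable : SecondCountableTopology G]
  [chartedSpace : ChartedSpace E G]
  [lieGroup : LieGroup 𝓘(ℝ, E) ∞ G]
  dim_pos : 0 < Module.finrank ℝ E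

attribute [instance] RealLieGroup.normedAddCommGroup RealLieGroup.normedSpace
  RealLieGroup.finiteDimensional RealLieGroup.group RealLieGroup.topologicalSpace
  RealLieGroup.t2Space RealLieGroup.secondCountable RealLieGroup.chartedSpace
  RealLieGroup.lieGroup

/-- The dimension of a Lie group. -/
def RealLieGroup.dim (K : RealLieGroup) : ℕ := Module.finrank ℝ K.E

instance (K : RealLieGroup) : LieGroup 𝓘(ℝ, K.E) (minSmoothness ℝ 3) K.G :=
  LieGroup.of_le (n := ∞) (by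
    rw [minSmoothness_of_isRCLikeNormedField]
    exact ENat.LEInfty.out)

instance (K : RealLieGroup) : CompleteSpace K.E := FiniteDimensional.complete ℝ K.E

/-- The Lie algebra of a Lie group (left-invariant vector fields, as in Mathlib). -/
abbrev RealLieGroup.lieAlg (K : RealLieGroup) : Type := GroupLieAlgebra 𝓘(ℝ, K.E) K.G

/-- `r` is the rank of the Lie group: the real dimension of a Cartan subalgebra
(nilpotent and self-normalizing) of its Lie algebra. -/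
def HasRank (K : RealLieGroup) (r : ℕ) : Prop :=
  ∃ H : LieSubalgebra ℝ K.lieAlg, H.IsCartanSubalgebra ∧ Module.finrank ℝ H = r

/-- `Q(X) = {x x'⁻¹ : x, x' ∈ X}`. -/
def quotientSet {G : Type} [Group G] (X : Set G) : Set G :=
  {g | ∃ x ∈ X, ∃ x' ∈ X, g = x * x'⁻¹}

/-- The triple product property of three subsets of a group. -/
def TripleProductProperty {G : Type} [Group G] (S T U : Set G) : Prop :=
  ∀ s ∈ quotientSet S, ∀ t ∈ quotientSet T, ∀ u ∈ quotientSet U,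
    s * t * u = 1 → s = 1 ∧ t = 1 ∧ u = 1

/-- `X` is a (nonempty, embedded) smooth submanifold of dimension `m` of the Lie group `K`:
the image of a smooth embedding of a nonempty smooth manifold modelled on `ℝ^m`. -/
def IsSubmanifold (K : RealLieGroup) (m : ℕ) (X : Set K.G) : Prop :=
  ∃ (M : Type) (_ : TopologicalSpace M) (_ : ChartedSpace (EuclideanSpace ℝ (Fin m)) M)
    (_ : IsManifold (𝓡 m) ∞ M) (f : M → K.G),
    Nonempty M ∧ IsSmoothEmbedding (𝓡 m) 𝓘(ℝ, K.E) ∞ f ∧ Set.range f = X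

/-- The denominator `(m₁ + m₂ + m₃)/3 - (d - r)/2`. -/
def denom (d r m₁ m₂ m₃ : ℕ) : ℝ := ((m₁ : ℝ) + m₂ + m₃) / 3 - ((d : ℝ) - r) / 2

/-- The set of the numbers `r(G) / ((dim M₁ + dim M₂ + dim M₃)/3 - (dim G - r(G))/2)` over all
triples of submanifolds with the triple product property and positive denominator. -/
def exponentSet (K : RealLieGroup) : Set EReal :=
  {w | ∃ (r m₁ m₂ m₃ : ℕ) (M₁ M₂ M₃ : Set K.G), HasRank K r ∧
    IsSubmanifold K m₁ M₁ ∧ IsSubmanifold K m₂ M₂ ∧ IsSubmanifold K m₃ M₃ ∧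
    TripleProductProperty M₁ M₂ M₃ ∧ 0 < denom K.dim r m₁ m₂ m₃ ∧
    w = (((r : ℝ) / denom K.dim r m₁ m₂ m₃ : ℝ) : EReal)}

/-- The Lie exponent `ω(G)` (it is `+∞` when there is no admissible triple). -/
def lieExponent (K : RealLieGroup) : EReal := sInf (exponentSet K)

/-! ### The lower bound -/

theorem one_mem_quotientSet {G : Type} [Group G] {X : Set G} (hX : X.Nonempty) :
    (1 : G) ∈ quotientSet X := by
  obtain ⟨x, hx⟩ := hX
  exact ⟨x, hx, x, hx, by simp⟩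

theorem IsSubmanifold.nonempty {K : RealLieGroup} {m : ℕ} {X : Set K.G}
    (h : IsSubmanifold K m X) : X.Nonempty := by
  obtain ⟨M, _, _, _, f, ⟨x⟩, _, rfl⟩ := h
  exact ⟨f x, x, rfl⟩

/-- If `(x, y) ↦ x⁻¹ y` is injective on `X × Y` then `dim X + dim Y ≤ dim G`. -/
theorem add_le_dim {K : RealLieGroup} {m m' : ℕ} {X Y : Set K.G}
    (hX : IsSubmanifold K m X) (hY : IsSubmanifold K m' Y)
    (hinj : ∀ x ∈ X, ∀ x' ∈ X, ∀ y ∈ Y, ∀ y' ∈ Y, x⁻¹ * y = x'⁻¹ * y' → x = x' ∧ y = y') :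
    m + m' ≤ K.dim := by
  obtain ⟨M, _, _, _, f, ⟨x₀⟩, hf, rfl⟩ := hX
  obtain ⟨N, _, _, _, g, ⟨y₀⟩, hg, rfl⟩ := hY
  have hMman : IsManifold (𝓡 m) 1 M := IsManifold.of_le (n := ∞) ENat.LEInfty.out
  have hNman : IsManifold (𝓡 m') 1 N := IsManifold.of_le (n := ∞) ENat.LEInfty.out
  have hGlie : LieGroup 𝓘(ℝ, K.E) 1 K.G := LieGroup.of_le (n := ∞) ENat.LEInfty.out
  have hGman : IsManifold 𝓘(ℝ, K.E) 1 K.G := inferInstance
  have hf1 : ContMDiff (𝓡 m) 𝓘(ℝ, K.E) 1 f := hf.contMDiff.of_le ENat.LEInfty.out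
  have hg1 : ContMDiff (𝓡 m') 𝓘(ℝ, K.E) 1 g := hg.contMDiff.of_le ENat.LEInfty.out
  have hF : ContMDiff ((𝓡 m).prod (𝓡 m')) 𝓘(ℝ, K.E) 1 (fun p : M × N => (f p.1)⁻¹ * g p.2) :=
    ((hf1.comp contMDiff_fst).inv).mul (hg1.comp contMDiff_snd)
  have hFinj : Function.Injective (fun p : M × N => (f p.1)⁻¹ * g p.2) := by
    rintro ⟨x, y⟩ ⟨x', y'⟩ h
    obtain ⟨h1, h2⟩ := hinj (f x) ⟨x, rfl⟩ (f x') ⟨x', rfl⟩ (g y) ⟨y, rfl⟩ (g y') ⟨y', rfl⟩ h
    rw [hf.isEmbedding.injective h1, hg.isEmbedding.injective h2]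
  have := Pool.Agent.Helper91.finrank_le_of_contMDiff_injective
    ((𝓡 m).prod (𝓡 m')) 𝓘(ℝ, K.E) hF hFinj (x₀, y₀)
  simpa [RealLieGroup.dim] using this

theorem two_le_lieExponent (K : RealLieGroup) : (2 : EReal) ≤ lieExponent K := by
  apply le_sInf
  rintro w ⟨r, m₁, m₂, m₃, M₁, M₂, M₃, -, h₁, h₂, h₃, hT, hpos, rfl⟩
  have e₁ := one_mem_quotientSet h₁.nonempty
  have e₂ := one_mem_quotientSet h₂.nonempty
  have e₃ := one_mem_quotientSet h₃.nonempty
  have h12 : m₁ + m₂ ≤ K.dim := by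
    apply add_le_dim h₁ h₂
    intro x hx x' hx' y hy y' hy' h
    have h1 : (x' * x⁻¹) * (y * y'⁻¹) * 1 = 1 := by
      calc (x' * x⁻¹) * (y * y'⁻¹) * 1 = x' * (x⁻¹ * y) * y'⁻¹ := by group
        _ = 1 := by rw [h]; group
    obtain ⟨a, b, -⟩ := hT _ ⟨x', hx', x, hx, rfl⟩ _ ⟨y, hy, y', hy', rfl⟩ _ e₃ h1
    exact ⟨(mul_inv_eq_one.1 a).symm, mul_inv_eq_one.1 b⟩
  have h23 : m₂ + m₃ ≤ K.dim := by
    apply add_le_dim h₂ h₃
    intro x hx x' hx' y hy y' hy' h
    have h1 : 1 * (x' * x⁻¹) * (y * y'⁻¹) = 1 := by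
      calc 1 * (x' * x⁻¹) * (y * y'⁻¹) = x' * (x⁻¹ * y) * y'⁻¹ := by group
        _ = 1 := by rw [h]; group
    obtain ⟨-, a, b⟩ := hT _ e₁ _ ⟨x', hx', x, hx, rfl⟩ _ ⟨y, hy, y', hy', rfl⟩ h1
    exact ⟨(mul_inv_eq_one.1 a).symm, mul_inv_eq_one.1 b⟩
  have h13 : m₁ + m₃ ≤ K.dim := by
    apply add_le_dim h₁ h₃
    intro x hx x' hx' y hy y' hy' h
    have h1 : (x' * x⁻¹) * 1 * (y * y'⁻¹) = 1 := by
      calc (x' * x⁻¹) * 1 * (y * y'⁻¹) = x' * (x⁻¹ * y) * y'⁻¹ := by group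
        _ = 1 := by rw [h]; group
    obtain ⟨a, -, b⟩ := hT _ ⟨x', hx', x, hx, rfl⟩ _ e₂ _ ⟨y, hy, y', hy', rfl⟩ h1
    exact ⟨(mul_inv_eq_one.1 a).symm, mul_inv_eq_one.1 b⟩
  have h12' : (m₁ : ℝ) + m₂ ≤ K.dim := by exact_mod_cast h12
  have h23' : (m₂ : ℝ) + m₃ ≤ K.dim := by exact_mod_cast h23
  have h13' : (m₁ : ℝ) + m₃ ≤ K.dim := by exact_mod_cast h13
  have hle : denom K.dim r m₁ m₂ m₃ ≤ (r : ℝ) / 2 := by
    unfold denom
    linarith
  have h2 : (2 : ℝ) ≤ (r : ℝ) / denom K.dim r m₁ m₂ m₃ := by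
    rw [le_div_iff₀ hpos]
    linarith
  have h3 : ((2 : ℝ) : EReal) ≤ (((r : ℝ) / denom K.dim r m₁ m₂ m₃ : ℝ) : EReal) :=
    EReal.coe_le_coe_iff.2 h2
  exact h3

/-! ### The upper bound -/

open Pool.Agent.Helper91 in
/-- The Heisenberg group of dimension `2(n+1)+1` as a `RealLieGroup`. -/
def heisenberg (n : ℕ) : RealLieGroup where
  E := HE (n + 1)
  G := Heis (n + 1)
  dim_pos := Module.finrank_pos

open Pool.Agent.Helper91 in
theorem heisenberg_dim (n : ℕ) : (heisenberg n).dim = 2 * (n + 1) + 1 := by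
  show Module.finrank ℝ (V (n + 1) × V (n + 1) × ℝ) = 2 * (n + 1) + 1
  simp
  ring

open Pool.Agent.Helper91 in
theorem heisenberg_hasRank (n r : ℕ) : HasRank (heisenberg n) r ↔ r = (heisenberg n).dim := by
  constructor
  · rintro ⟨H, hH, rfl⟩
    have hH' : H = ⊤ := Heis.cartan_eq_top H hH
    rw [hH']
    exact finrank_top ℝ (GroupLieAlgebra 𝓘(ℝ, HE (n + 1)) (Heis (n + 1)))
  · rintro rfl
    have : LieRing.IsNilpotent (GroupLieAlgebra 𝓘(ℝ, HE (n + 1)) (Heis (n + 1))) := inferInstance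
    refine ⟨(⊤ : LieSubalgebra ℝ (GroupLieAlgebra 𝓘(ℝ, HE (n + 1)) (Heis (n + 1)))), ?_, ?_⟩
    · exact LieAlgebra.top_isCartanSubalgebra_of_nilpotent
        (R := ℝ) (L := GroupLieAlgebra 𝓘(ℝ, HE (n + 1)) (Heis (n + 1)))
    · exact finrank_top ℝ (GroupLieAlgebra 𝓘(ℝ, HE (n + 1)) (Heis (n + 1)))

open Pool.Agent.Helper91 in
theorem isSubmanifold_range (n : ℕ) (L : V (n + 1) →ₗ[ℝ] HE (n + 1))
    (hL : Function.Injective L) :
    IsSubmanifold (heisenberg n) (n + 1) (Set.range (fun x => L x)) :=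
  ⟨V (n + 1), inferInstance, inferInstance, inferInstance, fun x => L x, ⟨0⟩,
    isSmoothEmbedding_of_injective_linear L hL, rfl⟩

open Pool.Agent.Helper91 in
theorem tpp (n : ℕ) : TripleProductProperty (G := (heisenberg n).G)
    (Set.range (fun x => (LinearMap.inl ℝ (V (n + 1)) (V (n + 1) × ℝ)) x))
    (Set.range (fun x => ((LinearMap.inr ℝ (V (n + 1)) (V (n + 1) × ℝ)).comp
      (LinearMap.inl ℝ (V (n + 1)) ℝ)) x))
    (Set.range (fun x => (LinearMap.id.prod (LinearMap.inl ℝ (V (n + 1)) ℝ)) x)) := by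
  rintro s ⟨_, ⟨a, rfl⟩, _, ⟨a', rfl⟩, rfl⟩ t ⟨_, ⟨b, rfl⟩, _, ⟨b', rfl⟩, rfl⟩
    u ⟨_, ⟨c, rfl⟩, _, ⟨c', rfl⟩, rfl⟩ h
  have h' : Heis.mulFun (Heis.mulFun (Heis.mulFun ((a, 0, 0) : HE (n + 1)) (-((a', 0, 0) :
      HE (n + 1)))) (Heis.mulFun ((0, b, 0) : HE (n + 1)) (-((0, b', 0) : HE (n + 1)))))
      (Heis.mulFun ((c, c, 0) : HE (n + 1)) (-((c', c', 0) : HE (n + 1)))) = 0 := h
  rw [Heis.quot_left, Heis.quot_right, Heis.quot_diag] at h'
  obtain ⟨h1, h2, h3⟩ := Heis.tpp_core _ _ _ h'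
  have g1 : Heis.mulFun ((a, 0, 0) : HE (n + 1)) (-((a', 0, 0) : HE (n + 1))) = 0 := by
    rw [Heis.quot_left, h1]; rfl
  have g2 : Heis.mulFun ((0, b, 0) : HE (n + 1)) (-((0, b', 0) : HE (n + 1))) = 0 := by
    rw [Heis.quot_right, h2]; rfl
  have g3 : Heis.mulFun ((c, c, 0) : HE (n + 1)) (-((c', c', 0) : HE (n + 1))) = 0 := by
    rw [Heis.quot_diag, h3]; rfl
  exact ⟨g1, g2, g3⟩

open Pool.Agent.Helper91 in
theorem lieExponent_heisenberg_le (n : ℕ) :
    lieExponent (heisenberg n) ≤ ((2 + 1 / ((n : ℝ) + 1) : ℝ) : EReal) := by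
  apply sInf_le
  have hd := heisenberg_dim n
  have hden : denom (heisenberg n).dim (heisenberg n).dim (n + 1) (n + 1) (n + 1) = (n : ℝ) + 1 := by
    unfold denom
    push_cast
    ring
  have hpos : (0 : ℝ) < (n : ℝ) + 1 := by positivity
  refine ⟨(heisenberg n).dim, n + 1, n + 1, n + 1, _, _, _, (heisenberg_hasRank n _).2 rfl,
    isSubmanifold_range n (LinearMap.inl ℝ (V (n + 1)) (V (n + 1) × ℝ)) LinearMap.inl_injective,
    isSubmanifold_range n ((LinearMap.inr ℝ (V (n + 1)) (V (n + 1) × ℝ)).comp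
      (LinearMap.inl ℝ (V (n + 1)) ℝ)) (LinearMap.inr_injective.comp LinearMap.inl_injective),
    isSubmanifold_range n (LinearMap.id.prod (LinearMap.inl ℝ (V (n + 1)) ℝ)) ?_,
    tpp n, ?_, ?_⟩
  · intro x y h
    exact congrArg Prod.fst h
  · rw [hden]; exact hpos
  · rw [hden, hd]
    congr 1
    push_cast
    field_simp

/-- **The Lie exponent of the family of all Lie groups is `2`.**  Every Lie group `K` satisfies
`2 ≤ ω(K)`, and there is a sequence of Lie groups (of dimension and rank `2(n+1)+1`, in fact the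
Heisenberg groups) whose Lie exponents tend to `2`; in particular the infimum of the Lie
exponents of all Lie groups equals `2`. -/
theorem result :
    (∀ K : RealLieGroup, 2 ≤ lieExponent K) ∧
    (∃ K : ℕ → RealLieGroup,
      (∀ n, (K n).dim = 2 * (n + 1) + 1 ∧ (∀ r, HasRank (K n) r ↔ r = (K n).dim) ∧
        lieExponent (K n) ≤ ((2 + 1 / ((n : ℝ) + 1) : ℝ) : EReal)) ∧
      Tendsto (fun n => lieExponent (K n)) atTop (𝓝 2)) ∧
    ⨅ K : RealLieGroup, lieExponent K = 2 := by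
  have hlim : Tendsto (fun n => lieExponent (heisenberg n)) atTop (𝓝 2) := by
    have h1 : Tendsto (fun n : ℕ => ((2 + 1 / ((n : ℝ) + 1) : ℝ) : EReal)) atTop
        (𝓝 ((2 + 0 : ℝ) : EReal)) := by
      apply (continuous_coe_real_ereal.tendsto _).comp
      exact tendsto_const_nhds.add tendsto_one_div_add_atTop_nhds_zero_nat
    have h2 : ((2 + 0 : ℝ) : EReal) = 2 := by
      rw [add_zero]; rfl
    rw [h2] at h1
    exact tendsto_of_tendsto_of_tendsto_of_le_of_le tendsto_const_nhds h1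
      (fun n => two_le_lieExponent _) (fun n => lieExponent_heisenberg_le n)
  refine ⟨two_le_lieExponent, ⟨heisenberg, fun n => ⟨heisenberg_dim n, heisenberg_hasRank n,
    lieExponent_heisenberg_le n⟩, hlim⟩, ?_⟩
  apply le_antisymm
  · exact ge_of_tendsto' hlim (fun n => iInf_le _ _)
  · exact le_iInf two_le_lieExponent

end Pool.Agent.Results.MP_56bb89_lc.LieExponentTwo
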