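import Pool.Agent.Helper60.LX.BoundRed
import Pool.Agent.Helper60.LX.SLFinal

set_option autoImplicit false

open Pool.Agent.Helper60.LX

noncomputable section

namespace Pool.Agent.Results.MP_56bb89_lc.ReductiveExponent

/-- Every reductive real Lie group has Lie exponent at least `3`, with `ω(G) ≥ 3 r / (r - 1)` if it is
nonabelian of rank `r ≥ 2` and `ω(G) = ∞` if it is nonabelian of rank at most `1`. This is sharp:
`ω(SL(n, ℝ)) = 3 (n - 1) / (n - 2)` for all `n ≥ 3` (`n = k + 2`, of rank `r = k + 1`), and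
`ω(SL(2, ℝ)) = ∞`; so the infimum over all nonabelian reductive groups is `3`. -/
theorem result :
    (∀ K : RealLieGroup, IsReductive K → 3 ≤ lieExponent K) ∧
    (∀ K : RealLieGroup, IsReductive K → IsNonabelian K → ∀ r : ℕ, HasRank K r →
      (r ≤ 1 → lieExponent K = ⊤) ∧
      (2 ≤ r → ((3 * (r : ℝ) / ((r : ℝ) - 1) : ℝ) : EReal) ≤ lieExponent K)) ∧
    (∀ k : ℕ, IsReductive (specialLinear k) ∧ IsNonabelian (specialLinear k) ∧
      HasRank (specialLinear k) (k + 1)) ∧
    lieExponent (specialLinear 0) = ⊤ ∧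
    (∀ k : ℕ, 1 ≤ k → lieExponent (specialLinear k) = ((3 * ((k : ℝ) + 1) / k : ℝ) : EReal)) ∧
    (⨅ (K : RealLieGroup) (_ : IsReductive K ∧ IsNonabelian K), lieExponent K) = 3 := by
  have hA : ∀ K : RealLieGroup, IsReductive K → IsNonabelian K → ∀ r : ℕ, HasRank K r →
        (r ≤ 1 → lieExponent K = ⊤) ∧
        (2 ≤ r → ((3 * (r : ℝ) / ((r : ℝ) - 1) : ℝ) : EReal) ≤ lieExponent K) := by
    intro K hK hn r hr
    refine ⟨fun h1 => ?_, fun _ => ?_⟩
    · have he : exponentSet K = ∅ := by
        rw [Set.eq_empty_iff_forall_notMem]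
        intro w hw
        have := (exponentSet_nonabelian K hK hn hr hw).1
        omega
      rw [lieExponent, he, sInf_empty]
    · exact le_sInf fun w hw => (exponentSet_nonabelian K hK hn hr hw).2
  refine ⟨fun K hK => three_le K hK, hA,
    fun k => ⟨specialLinear_reductive k, specialLinear_nonabelian k, specialLinear_rank k⟩,
    (hA _ (specialLinear_reductive 0) (specialLinear_nonabelian 0) _
      (specialLinear_rank 0)).1 le_rfl, fun k hk => le_antisymm
        (lieExponent_specialLinear_le k hk) ?_, le_antisymm ?_ (le_iInf fun K => le_iInf fun hK =>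
          three_le K hK.1)⟩
  · have h := (hA _ (specialLinear_reductive k) (specialLinear_nonabelian k) _
      (specialLinear_rank k)).2 (by omega)
    have he : (3 * (((k + 1 : ℕ) : ℝ)) / (((k + 1 : ℕ) : ℝ) - 1) : ℝ) =
        3 * ((k : ℝ) + 1) / k := by
      push_cast
      rw [add_sub_cancel_right]
    rwa [he] at h
  · by_contra hlt
    rw [not_le] at hlt
    obtain ⟨c, hc1, hc2⟩ := EReal.lt_iff_exists_real_btwn.1 hlt
    have hc3 : (3 : ℝ) < c := by
      have h3 : ((3 : ℝ) : EReal) < (c : EReal) := hc1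
      exact EReal.coe_lt_coe_iff.1 h3
    obtain ⟨k, hk⟩ := exists_nat_gt (3 / (c - 3))
    have hc4 : 0 < c - 3 := by linarith
    have hk0 : (0 : ℝ) < k := lt_trans (div_pos (by norm_num) hc4) hk
    have hk1 : 1 ≤ k := by
      have : 0 < k := by exact_mod_cast hk0
      omega
    have h1 : (⨅ (K : RealLieGroup) (_ : IsReductive K ∧ IsNonabelian K), lieExponent K) ≤
        lieExponent (specialLinear k) :=
      iInf₂_le _ ⟨specialLinear_reductive k, specialLinear_nonabelian k⟩
    have h2 := lieExponent_specialLinear_le k hk1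
    have h3 : (3 * ((k : ℝ) + 1) / k : ℝ) < c := by
      rw [div_lt_iff₀ hc4] at hk
      rw [div_lt_iff₀ hk0]
      nlinarith
    have h4 : ((3 * ((k : ℝ) + 1) / k : ℝ) : EReal) < (c : EReal) := EReal.coe_lt_coe_iff.2 h3
    exact absurd (lt_of_le_of_lt (h1.trans h2) h4) (not_lt.2 hc2.le)

end Pool.Agent.Results.MP_56bb89_lc.ReductiveExponent
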