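import Pool.Agent.Helper60.LX.Bound

set_option autoImplicit false

open Pool.Agent.Helper60.LX

noncomputable section

namespace Pool.Agent.Results.MP_56bb89_lc.TripleIndexBound

/-- Let `M₁, M₂, M₃` be submanifolds of a real Lie group of dimension `d` with the triple product
property, `D` the sum of their dimensions, and `ι` the index of the Lie algebra. Then `D ≤ d` or
`2 D ≤ 3 d - ι - 2`; in particular `3 (D / 3 - (d - r) / 2) ≤ r` for all `r ≤ ι`. -/
theorem result (K : RealLieGroup) (m₁ m₂ m₃ : ℕ) (M₁ M₂ M₃ : Set K.G)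
    (h₁ : IsSubmanifold K m₁ M₁) (h₂ : IsSubmanifold K m₂ M₂) (h₃ : IsSubmanifold K m₃ M₃)
    (hT : TripleProductProperty M₁ M₂ M₃) :
    (m₁ + m₂ + m₃ ≤ K.dim ∨ 2 * (m₁ + m₂ + m₃) + K.index + 2 ≤ 3 * K.dim) ∧
      ∀ r : ℕ, r ≤ K.index → 3 * denom K.dim r m₁ m₂ m₃ ≤ r := by
  have hm := main_ineq K h₁ h₂ h₃ hT
  have hd := index_le_dim K
  refine ⟨hm, fun r hr => ?_⟩
  have h3 : 2 * (m₁ + m₂ + m₃) + r ≤ 3 * K.dim := by omega
  have h3' : 2 * ((m₁ : ℝ) + m₂ + m₃) + r ≤ 3 * K.dim := by exact_mod_cast h3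
  unfold denom
  linarith

end Pool.Agent.Results.MP_56bb89_lc.TripleIndexBound
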